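import Mathlib
import Pool.Agent.X255.RH.Main
import Pool.Agent.N534.DI.ZetL

/-!
# The numbers `ζ^(k)(m x + a)` at all roots of almost all integral polynomials

The question is whether `ζ(2) ζ(3)` is a rational combination of `ζ(2), ζ(3), ζ(4), ζ(5)`; these are the numbers `ζ(x), ζ(x + 1), ζ(x + 2),
ζ(x + 3)` for `x = 2`. Let `A` be a finite set of real numbers, for instance `{0, 1, 2, 3}`, and let `M`, `K` be integers. We consider the numbers
`ζ^(k)(m x + a)`, `1 ≤ m ≤ M`, `a ∈ A`, `0 ≤ k < K`, at ALL the roots `x` of an integral polynomial of degree `g` at which none of the arguments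
`m x + a` is `1`; so `x` runs through algebraic numbers of degree `g` with all their conjugates (rational numbers for `g = 1`).

We prove: for almost all integral polynomials with coefficients at most `T` these numbers, at all roots `x` together, satisfy no algebraic
relation over number fields whose degree and whose field degree is at most `ω(T)` and whose height is at most `T ^ ω(T)`, where `ω(T) → ∞`; the
coefficients of the relations may contain arbitrary given complex numbers `ξ_0, ξ_1, …`, for instance the powers of `π`. In particular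
`ζ(x) ζ(x + 1)` is not a combination of `ζ(x), ζ(x + 1), ζ(x + 2), ζ(x + 3)` in this range.

The proof is an application of `Pool.Agent.X255.RH.main_all` (values of algebraically independent functions at the roots of almost all
polynomials). That the functions `z` and `ζ^(k)(m z + a)` are algebraically independent over `ℂ` is proved in `Pool.Agent.N534.DI.aindepZ`, with
the derivations `f(n) ↦ v_p(n) f(n)` of the ring of arithmetic functions.
-/

set_option autoImplicit false

open Polynomial Filter Topology NumberField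

namespace Pool.Agent.Results.MP_524521_nt.AllRootsOfPolynomials

/-- The integral vectors `a = (a_0, …, a_g)` with `|a_i| ≤ T`. -/
noncomputable def box (g T : ℕ) : Finset (Fin (g + 1) → ℤ) := Fintype.piFinset fun _ => Finset.Icc (-(T : ℤ)) (T : ℤ)

/-- The polynomial `a_0 + a_1 x + … + a_g x^g`. -/
noncomputable def poly {g : ℕ} (a : Fin (g + 1) → ℤ) : ℂ[X] := ∑ i, C (a i : ℂ) * X ^ (i : ℕ)

/-- The points `z` at which one of the arguments `m z + a`, `1 ≤ m ≤ M`, `a ∈ A`, is the pole `1` of the zeta function. -/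
def poles (M : ℕ) (A : Finset ℝ) : Set ℂ := {z | ∃ (i : Fin M) (a : ℝ), a ∈ A ∧ (((i : ℕ) + 1 : ℕ) : ℂ) * z + (a : ℂ) = 1}

/-- The other points. -/
def dom (M : ℕ) (A : Finset ℝ) : Set ℂ := (poles M A)ᶜ

/-- The roots in `dom M A` of the polynomial with the coefficients `a`. -/
noncomputable def roots {g : ℕ} (M : ℕ) (A : Finset ℝ) (a : Fin (g + 1) → ℤ) : Finset ℂ := by
  classical exact (poly a).roots.toFinset.filter fun z => z ∈ dom M A

/-- The index `(i, a, k)` stands for the function `ζ^(k)((i + 1) x + a)`. -/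
abbrev Index (M : ℕ) (A : Finset ℝ) (K : ℕ) : Type := Fin M × ({a // a ∈ A} × Fin K)

/-- The value of the `k`-th derivative of the Riemann zeta function at `(i + 1) x + a`. -/
noncomputable def values {M : ℕ} {A : Finset ℝ} {K : ℕ} (j : Index M A K) (x : ℂ) : ℂ :=
  iteratedDeriv j.2.2 riemannZeta ((((j.1 : ℕ) + 1 : ℕ) : ℂ) * x + ((j.2.1 : ℝ) : ℂ))

/-- The numbers `x q` satisfy no relation of degree at most `k` in each of them with coefficients `∑_{b < k} ξ_b c_b`, where the `c_b` are
integers of a number field of degree at most `k` all of whose conjugates are at most `T ^ k`, except the relations all of whose coefficients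
vanish. -/
def NoRelation {Q : Type} [Fintype Q] [DecidableEq Q] (ξ : ℕ → ℂ) (k : ℕ) (T : ℝ) (x : Q → ℂ) : Prop :=
  ∀ (F : Type) [Field F] [NumberField F], Module.finrank ℚ F ≤ k → ∀ (io : F →+* ℂ)
    (c : (Q → Fin (k + 1)) → Fin k → 𝓞 F), (∀ l b (φ : F →+* ℂ), ‖φ (c l b : F)‖ ≤ T ^ k) →
    ∑ l, (∑ b : Fin k, ξ b * io (c l b : F)) * ∏ q, x q ^ (l q : ℕ) = 0 → ∀ l, ∑ b : Fin k, ξ b * io (c l b : F) = 0

/-- The polynomial with the coefficients `a` has degree `g` and simple roots, and there is no relation between the numbers `ζ^(k)(m x + a)` at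
all its roots `x` in `dom M A` together. -/
def Good {g : ℕ} (M : ℕ) (A : Finset ℝ) (K : ℕ) (ξ : ℕ → ℂ) (k : ℕ) (T : ℝ) (a : Fin (g + 1) → ℤ) : Prop :=
  a (Fin.last g) ≠ 0 ∧ (poly a).Separable ∧
    NoRelation ξ k T fun q : {x // x ∈ roots M A a} × Index M A K => values q.2 q.1

section proofs

variable {M K : ℕ} {A : Finset ℝ}

theorem poles_finite (M : ℕ) (A : Finset ℝ) : (poles M A).Finite := by
  classical
  refine ((Finset.univ ×ˢ A : Finset (Fin M × ℝ)).image fun p => (1 - (p.2 : ℂ)) / (((p.1 : ℕ) + 1 : ℕ) : ℂ)).finite_toSet.subset ?_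
  rintro z ⟨i, a, ha, h⟩
  rw [Finset.mem_coe, Finset.mem_image]
  refine ⟨(i, a), by simp [ha], ?_⟩
  have h0 : (((i : ℕ) + 1 : ℕ) : ℂ) ≠ 0 := by exact_mod_cast Nat.succ_ne_zero (i : ℕ)
  rw [div_eq_iff h0, ← h]
  ring

theorem dom_open : IsOpen (dom M A) := (poles_finite M A).isClosed.isOpen_compl

theorem conn : IsPreconnected (dom M A) :=
  ((poles_finite M A).countable.isConnected_compl_of_one_lt_rank (by rw [Complex.rank_real_complex]; norm_num)).isPreconnected

theorem zeta_an (k : ℕ) : AnalyticOnNhd ℂ (iteratedDeriv k riemannZeta) ({1}ᶜ : Set ℂ) := by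
  rw [iteratedDeriv_eq_iterate]
  have h : AnalyticOnNhd ℂ riemannZeta ({1}ᶜ : Set ℂ) :=
    DifferentiableOn.analyticOnNhd (fun _ hz => (differentiableAt_riemannZeta hz).differentiableWithinAt) isOpen_compl_singleton
  exact h.iterated_deriv k

theorem an (j : Index M A K) : AnalyticOnNhd ℂ (values j) (dom M A) := by
  intro z hz
  have h1 : (((j.1 : ℕ) + 1 : ℕ) : ℂ) * z + ((j.2.1 : ℝ) : ℂ) ∈ ({1}ᶜ : Set ℂ) := fun h => hz ⟨j.1, j.2.1, j.2.1.2, h⟩
  exact AnalyticAt.fun_comp (g := iteratedDeriv j.2.2 riemannZeta) (f := fun x => (((j.1 : ℕ) + 1 : ℕ) : ℂ) * x + ((j.2.1 : ℝ) : ℂ))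
    (zeta_an _ _ h1) ((analyticAt_const.mul analyticAt_id).add analyticAt_const)

theorem ind : Pool.Agent.X255.RH.Indep (dom M A) (values (M := M) (A := A) (K := K)) := by
  obtain ⟨R, hR⟩ := (poles_finite M A).isBounded.subset_closedBall 0
  refine Pool.Agent.X255.RH.indep_of_aindepS fun P hP => Pool.Agent.N534.DI.aindepZ (|R| + 1) P fun x hx => ?_
  refine hP (x : ℂ) fun h => ?_
  have h1 := hR h
  rw [mem_closedBall_zero_iff, Complex.norm_real, Real.norm_eq_abs] at h1
  have h2 := le_abs_self x
  have h3 := le_abs_self R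
  linarith

end proofs

open scoped Classical in
/-- **All roots of almost all polynomials.** Let `A` be a finite set of real numbers and let `M`, `K` be integers. For every degree `g ≥ 1` and all
complex numbers `ξ_0, ξ_1, …` there is a function `ω(T) → ∞` such that among the `(2 T + 1)^(g + 1)` integral polynomials with coefficients at
most `T` at most the proportion `1 / ω(T)` is not good. -/
theorem result (M : ℕ) (A : Finset ℝ) (K : ℕ) (g : ℕ) (hg : 0 < g) (ξ : ℕ → ℂ) :
    ∃ ω : ℕ → ℕ, Tendsto ω atTop atTop ∧ Monotone ω ∧ ∀ T : ℕ,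
      ω T * ((box g T).filter fun a => ¬ Good M A K ξ (ω T) T a).card ≤ (box g T).card :=
  Pool.Agent.X255.RH.main_all hg conn dom_open (fun _ => dom M A)
    (fun _ => Pool.Agent.X255.RH.tame_of_discrete fun _ => (poles_finite M A).inter_of_left _) an ind ξ

end Pool.Agent.Results.MP_524521_nt.AllRootsOfPolynomials
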