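import Mathlib
import Pool.Agent.N778.CH.Damp

set_option autoImplicit false

/-!
# The product `ζ(2) ζ(3)` and the span of `ζ(2), …, ζ(5)`, damped: at most three exceptional points

For an integer `k ≥ 2` and a complex number `x` let `T_k(x)` be the Poisson mean of the tails of `ζ(k)`,
`T_k(x) = exp (-x) * ∑_j x^j/j! * ∑_{n > j} 1/n^k`, so that `T_k(0) = ζ(k)`.

For complex numbers `a_1, …, a_n` with `a_n ≠ 0` let `I(a_1, …, a_n)` be the iterated integral of the forms
`ω_{a_1}(t_1), …, ω_{a_n}(t_n)` over `1 > t_1 > … > t_n > 0`, where `ω_0 = dt / t` and `ω_a = (exp (a t) - 1) dt / t` for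
`a ≠ 0`. Let `𝓚` be the field which is generated by all algebraic numbers, all numbers `exp b`, `b` algebraic, and
all numbers `I(a_1, …, a_n)` with algebraic `a_1, …, a_n`, no two nonzero ones of which have sum zero.

Let `X` be a set of algebraic numbers `x` such that `x + y ≠ 0` for all `x, y` in `X` (for example the set of the
positive algebraic numbers).

(1) For all but at most three of the points `x` in `X ∪ {0}` the product `T_2(x) T_3(x)` is not of the form
`a T_2(x) + b T_3(x) + c T_4(x) + d T_5(x)` with `a, b, c, d` in `𝓚`. For `x = 0` this is the statement of the question, for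
coefficients in `𝓚` instead of `ℚ`.

(2) If `ζ(2) ζ(3) = a ζ(2) + b ζ(3) + c ζ(4) + d ζ(5)` with `a, b, c, d` in `𝓚` (for example in `ℚ`) then for all but at most
two of the points `x` in `X` the numbers `T_2(x), T_3(x), T_4(x), T_5(x)` are algebraically independent over `𝓚`.

(3) Let `m ≥ 1`. We call a point `x` in `X` exceptional, if `T_2(x), …, T_m(x)` are algebraically dependent over `𝓚`, and
we call the point `0` exceptional, if the numbers `π` and `ζ(k)`, `3 ≤ k ≤ m` odd, are algebraically dependent over `𝓚`.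
There are at most `(m + 1) / 2` exceptional points in `X ∪ {0}` (`m / 2` if `m` is even).
-/

namespace Pool.Agent.Results.MP_524521_nt.DampedProduct

open Set

/-- `T_k(x)` -/
noncomputable def T (k : ℕ) (x : ℂ) : ℂ :=
  Complex.exp (-x) * ∑' j : ℕ, x ^ j / j.factorial * ∑' i : ℕ, 1 / ((i : ℂ) + j + 1) ^ k

/-- the iterated integral of `ω_{a_1}(t_1), …, ω_{a_n}(t_n)` over `t > t_1 > … > t_n > 0` -/
noncomputable def iterated : List ℂ → ℝ → ℂ
  | [], _ => 1
  | a :: v, t => ∫ s in (0 : ℝ)..t, (if a = 0 then 1 else Complex.exp (a * s) - 1) * iterated v s / s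

/-- `I(a_1, …, a_n)` -/
noncomputable def I (w : List ℂ) : ℂ := iterated w 1

/-- the entries are algebraic, the last one is not zero, no two nonzero entries have sum zero -/
def Admissible (w : List ℂ) : Prop :=
  (∀ a ∈ w, IsAlgebraic ℚ a) ∧ (∀ h : w ≠ [], w.getLast h ≠ 0) ∧ ∀ a ∈ w, a ≠ 0 → -a ∉ w

/-- the field `𝓚` -/
noncomputable def baseField : IntermediateField ℚ ℂ := IntermediateField.adjoin ℚ
  ({z | IsAlgebraic ℚ z} ∪ {z | ∃ b : ℂ, IsAlgebraic ℚ b ∧ z = Complex.exp b} ∪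
    {z | ∃ w : List ℂ, Admissible w ∧ z = I w})

/-- the condition on the set `X` -/
def Points (X : Set ℂ) : Prop := ∀ x ∈ X, IsAlgebraic ℚ x ∧ ∀ y ∈ X, x + y ≠ 0

/-- the constants: `π` (index `0`) and `ζ(k)` -/
noncomputable def const (k : ℕ) : ℂ := if k = 0 then (Real.pi : ℂ) else riemannZeta k

/-- `T_2(x) T_3(x)` is a linear combination of `T_2(x), …, T_5(x)` with coefficients in `𝓚` -/
def InSpan (x : ℂ) : Prop := ∃ a ∈ baseField, ∃ b ∈ baseField, ∃ c ∈ baseField, ∃ d ∈ baseField,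
  T 2 x * T 3 x = a * T 2 x + b * T 3 x + c * T 4 x + d * T 5 x

/-- the exceptional points -/
def exceptional (X : Set ℂ) (m : ℕ) : Set ℂ :=
  {x | (x ∈ X ∧ ¬ AlgebraicIndependent baseField (fun k : {k : ℕ // 2 ≤ k ∧ k ≤ m} => T k x)) ∨
    (x = 0 ∧ ¬ AlgebraicIndependent baseField (fun k : {k : ℕ // (k = 0 ∨ 3 ≤ k ∧ Odd k) ∧ k ≤ m} => const k))}

open Pool.Agent.N902.EW (II KK PT clf mem_clf mem_clf' subset_clf clf_mono clf_of_alg)

theorem iterated_eq (w : List ℂ) : ∀ t : ℝ, iterated w t = II w t := by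
  induction w with
  | nil => intro t; rfl
  | cons a v ih =>
    intro t
    rw [iterated, II]
    refine intervalIntegral.integral_congr fun s _ => ?_
    show (if a = 0 then 1 else Complex.exp (a * s) - 1) * iterated v s / s = _
    rw [ih]

theorem baseField_eq : baseField = KK := by
  rw [baseField, KK]
  congr 2
  ext z
  constructor
  · rintro ⟨w, hw, rfl⟩
    exact ⟨w, ⟨hw.1, hw.2.1⟩, hw.2.2, iterated_eq w 1⟩
  · rintro ⟨w, hw, hno, rfl⟩
    exact ⟨w, ⟨hw.1, hw.2, hno⟩, (iterated_eq w 1).symm⟩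

theorem ind_iff {ι : Type} (z : ι → ℂ) : AlgebraicIndependent baseField z ↔ AlgebraicIndependent KK z := by
  rw [baseField_eq]

/-- the index of `T_k(x)` -/
def index (k : ℕ) : ℕ := if Even k then 0 else k

theorem const_zeta {k : ℕ} (hk : 2 ≤ k) : riemannZeta k ∈ clf KK {const (index k)} := by
  have h0 : const (index k) ∈ clf KK {const (index k)} := subset_clf _ rfl
  by_cases h : Even k
  · have h1 : const (index k) = (Real.pi : ℂ) := by rw [index, if_pos h, const, if_pos rfl]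
    obtain ⟨m, hm⟩ := h
    have h2 : k = 2 * m := by omega
    rw [h1] at h0 ⊢
    rw [h2]
    exact Pool.Agent.N778.CH.zeta_even_mem' h0 (by omega)
  · have h1 : const (index k) = riemannZeta k := by rw [index, if_neg h, const, if_neg (by omega)]
    rw [h1] at h0 ⊢
    exact h0

theorem zero_notMem {X : Set ℂ} (hX : Points X) : (0 : ℂ) ∉ X := fun h => (hX 0 h).2 0 h (add_zero 0)

theorem exc_le {X : Set ℂ} (hX : Points X) {m : ℕ} (hm : 1 ≤ m) :
    (exceptional X m).encard ≤ (((m + 1) / 2 : ℕ) : ℕ∞) := by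
  classical
  obtain ⟨C, hC, hC2⟩ := Pool.Agent.N778.CH.damped X hX const index (fun k hk => mem_clf.1 (const_zeta hk))
  let Nm : Type := ℕ ⊕ {p : ℕ × ℂ // 2 ≤ p.1 ∧ p.2 ∈ X}
  let pt : Nm → ℂ := Sum.elim (fun _ => 0) (fun p => p.1.2)
  let bl : Nm → ℕ := Sum.elim id (fun p => index p.1.1)
  have key : ∀ x ∈ exceptional X m, ∃ p : Nm, p ∉ C ∧ pt p = x ∧ (bl p = 0 ∨ 3 ≤ bl p ∧ Odd (bl p)) ∧ bl p ≤ m := by
    rintro x (⟨hx, hdep⟩ | ⟨rfl, hdep⟩)
    · by_contra hcon
      push Not at hcon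
      refine hdep ?_
      rw [ind_iff]
      have hin : ∀ k : {k : ℕ // 2 ≤ k ∧ k ≤ m}, (Sum.inr ⟨(k.1, x), k.2.1, hx⟩ : Nm) ∈ C := by
        intro k
        by_contra hk
        have hidx : index k.1 = 0 ∨ 3 ≤ index k.1 ∧ Odd (index k.1) := by
          by_cases he : Even k.1
          · exact Or.inl (if_pos he)
          · right
            have h2 := Nat.not_even_iff_odd.1 he
            have h3 : index k.1 = k.1 := if_neg he
            rw [h3]
            refine ⟨?_, h2⟩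
            have h4 := k.2.1
            obtain ⟨j, hj⟩ := h2
            omega
        have h1 := hcon _ hk rfl hidx
        have h2 : index k.1 ≤ k.1 := by
          rw [index]
          split_ifs <;> omega
        have h3 := k.2.2
        have h4 : m < index k.1 := h1
        omega
      have h1 := hC2.comp (fun k : {k : ℕ // 2 ≤ k ∧ k ≤ m} => (⟨Sum.inr ⟨(k.1, x), k.2.1, hx⟩, hin k⟩ : C)) (by
        intro k l hkl
        have h2 := Sum.inr_injective (congrArg (fun z : C => z.1) hkl)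
        have h3 : k.1 = l.1 := congrArg (fun z : {p : ℕ × ℂ // 2 ≤ p.1 ∧ p.2 ∈ X} => z.1.1) h2
        exact Subtype.ext h3)
      exact h1
    · by_contra hcon
      push Not at hcon
      refine hdep ?_
      rw [ind_iff]
      have hin : ∀ k : {k : ℕ // (k = 0 ∨ 3 ≤ k ∧ Odd k) ∧ k ≤ m}, (Sum.inl k.1 : Nm) ∈ C := by
        intro k
        by_contra hk
        have h1 : m < k.1 := hcon _ hk rfl k.2.1
        have h2 := k.2.2
        omega
      have h1 := hC2.comp (fun k : {k : ℕ // (k = 0 ∨ 3 ≤ k ∧ Odd k) ∧ k ≤ m} => (⟨Sum.inl k.1, hin k⟩ : C)) (by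
        intro k l hkl
        have h2 := Sum.inl_injective (congrArg (fun z : C => z.1) hkl)
        exact Subtype.ext h2)
      exact h1
  choose! f hf1 hf2 hf3 hf4 using key
  have hinj : InjOn (fun x => bl (f x)) (exceptional X m) := by
    intro x hx y hy hxy
    have h1 : f x = f y := hC _ _ (hf1 x hx) (hf1 y hy) hxy
    rw [← hf2 x hx, ← hf2 y hy, h1]
  let G : Finset ℕ := (Finset.range ((m + 1) / 2)).image fun j => if j = 0 then 0 else 2 * j + 1
  have hmaps : MapsTo (fun x => bl (f x)) (exceptional X m) (G : Set ℕ) := by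
    intro x hx
    refine Finset.mem_coe.2 (Finset.mem_image.2 ?_)
    rcases hf3 x hx with h | ⟨h, h'⟩
    · exact ⟨0, Finset.mem_range.2 (by omega), by simp only [if_pos]; exact h.symm⟩
    · obtain ⟨j, hj⟩ := h'
      have h1 := hf4 x hx
      refine ⟨j, Finset.mem_range.2 (by omega), ?_⟩
      rw [if_neg (by omega)]
      exact hj.symm
  have h1 := Set.encard_le_encard_of_injOn hmaps hinj
  refine h1.trans ?_
  rw [Set.encard_coe_eq_coe_finsetCard]
  have h2 : G.card ≤ (m + 1) / 2 := by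
    refine Finset.card_image_le.trans ?_
    rw [Finset.card_range]
  exact_mod_cast h2

theorem notMem {ι : Type} {f : ι → ℂ} (hf : AlgebraicIndependent KK f) (i : ι) : f i ∉ clf KK (f '' {i}ᶜ) := by
  intro h
  have h1 := ((AlgebraicIndependent.iff_transcendental_adjoin_image i).1 hf).2
  rw [mem_clf', Pool.Agent.N902.EW.mem_cl] at h
  exact h1 h

theorem coeff_mem {a : ℂ} (ha : a ∈ baseField) (S : Set ℂ) : a ∈ clf KK S := by
  rw [baseField_eq] at ha
  exact clf_of_alg (isAlgebraic_algebraMap (⟨a, ha⟩ : KK))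

theorem span_pos {X : Set ℂ} {x : ℂ} (hx : x ∈ X) (h : InSpan x) : x ∈ exceptional X 5 := by
  left
  refine ⟨hx, fun hind => ?_⟩
  rw [ind_iff] at hind
  obtain ⟨a, ha, b, hb, c, hc, d, hd, heq⟩ := h
  let i2 : {k : ℕ // 2 ≤ k ∧ k ≤ 5} := ⟨2, by norm_num⟩
  let i3 : {k : ℕ // 2 ≤ k ∧ k ≤ 5} := ⟨3, by norm_num⟩
  let i4 : {k : ℕ // 2 ≤ k ∧ k ≤ 5} := ⟨4, by norm_num⟩
  let i5 : {k : ℕ // 2 ≤ k ∧ k ≤ 5} := ⟨5, by norm_num⟩
  by_cases h3 : T 3 x = a
  · refine notMem hind i3 ?_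
    show T 3 x ∈ _
    rw [h3]
    exact coeff_mem ha _
  · refine notMem hind i2 ?_
    show T 2 x ∈ clf KK _
    set C := clf KK ((fun k : {k : ℕ // 2 ≤ k ∧ k ≤ 5} => T k x) '' {i2}ᶜ) with hCdef
    have m3 : T 3 x ∈ C := subset_clf _ ⟨i3, by simp [i2, i3], rfl⟩
    have m4 : T 4 x ∈ C := subset_clf _ ⟨i4, by simp [i2, i4], rfl⟩
    have m5 : T 5 x ∈ C := subset_clf _ ⟨i5, by simp [i2, i5], rfl⟩
    have h4 : T 3 x - a ≠ 0 := sub_ne_zero.2 h3
    have h5 : T 2 x = (b * T 3 x + c * T 4 x + d * T 5 x) / (T 3 x - a) := by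
      rw [eq_div_iff h4]
      linear_combination heq
    rw [h5]
    exact C.div_mem (C.add_mem (C.add_mem (C.mul_mem (coeff_mem hb _) m3) (C.mul_mem (coeff_mem hc _) m4))
      (C.mul_mem (coeff_mem hd _) m5)) (C.sub_mem m3 (coeff_mem ha _))

theorem T_zero {k : ℕ} (hk : 2 ≤ k) : T k 0 = riemannZeta k := Pool.Agent.N778.CH.PT_zero' hk

theorem span_zero {X : Set ℂ} (h : InSpan 0) : (0 : ℂ) ∈ exceptional X 5 := by
  right
  refine ⟨rfl, fun hind => ?_⟩
  rw [ind_iff] at hind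
  obtain ⟨a, ha, b, hb, c, hc, d, hd, heq⟩ := h
  rw [T_zero (by norm_num), T_zero (by norm_num), T_zero (by norm_num), T_zero (by norm_num)] at heq
  let i0 : {k : ℕ // (k = 0 ∨ 3 ≤ k ∧ Odd k) ∧ k ≤ 5} := ⟨0, Or.inl rfl, by norm_num⟩
  let i3 : {k : ℕ // (k = 0 ∨ 3 ≤ k ∧ Odd k) ∧ k ≤ 5} := ⟨3, Or.inr ⟨le_rfl, by decide⟩, by norm_num⟩
  let i5 : {k : ℕ // (k = 0 ∨ 3 ≤ k ∧ Odd k) ∧ k ≤ 5} := ⟨5, Or.inr ⟨by norm_num, by decide⟩, le_rfl⟩
  have c0 : const 0 = (Real.pi : ℂ) := if_pos rfl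
  have c3 : const 3 = riemannZeta ((3 : ℕ) : ℂ) := if_neg (by norm_num)
  have c5 : const 5 = riemannZeta ((5 : ℕ) : ℂ) := if_neg (by norm_num)
  have even : ∀ (L : Subfield ℂ), (Real.pi : ℂ) ∈ L → riemannZeta ((2 : ℕ) : ℂ) ∈ L ∧ riemannZeta ((4 : ℕ) : ℂ) ∈ L :=
    fun L hL => ⟨Pool.Agent.N778.CH.zeta_even_mem' hL (n := 1) one_ne_zero,
      Pool.Agent.N778.CH.zeta_even_mem' hL (n := 2) two_ne_zero⟩
  by_cases hd0 : d = 0
  · by_cases hb0 : riemannZeta ((2 : ℕ) : ℂ) = b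
    · -- `π` would be algebraic over `𝓚`
      refine notMem hind i0 ?_
      show const 0 ∈ clf KK _
      set C := clf KK ((fun k : {k : ℕ // (k = 0 ∨ 3 ≤ k ∧ Odd k) ∧ k ≤ 5} => const k) '' {i0}ᶜ) with hCdef
      rw [c0]
      refine Pool.Agent.N902.EW.clf_pow (n := 2) two_ne_zero ?_
      have h1 : (Real.pi : ℂ) ^ 2 = 6 * b := by
        rw [← hb0]
        push_cast
        rw [riemannZeta_two]
        ring
      rw [h1]
      exact C.mul_mem (ofNat_mem C 6) (coeff_mem hb _)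
    · refine notMem hind i3 ?_
      show const 3 ∈ clf KK _
      set C := clf KK ((fun k : {k : ℕ // (k = 0 ∨ 3 ≤ k ∧ Odd k) ∧ k ≤ 5} => const k) '' {i3}ᶜ) with hCdef
      have m0 : (Real.pi : ℂ) ∈ C := by
        rw [← c0]
        exact subset_clf _ ⟨i0, by simp [i0, i3], rfl⟩
      obtain ⟨m2, m4⟩ := even C m0
      have h4 : riemannZeta ((2 : ℕ) : ℂ) - b ≠ 0 := sub_ne_zero.2 hb0
      have h5 : riemannZeta ((3 : ℕ) : ℂ) = (a * riemannZeta ((2 : ℕ) : ℂ) + c * riemannZeta ((4 : ℕ) : ℂ)) /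
          (riemannZeta ((2 : ℕ) : ℂ) - b) := by
        rw [eq_div_iff h4]
        rw [hd0, zero_mul, add_zero] at heq
        linear_combination heq
      rw [c3, h5]
      exact C.div_mem (C.add_mem (C.mul_mem (coeff_mem ha _) m2) (C.mul_mem (coeff_mem hc _) m4))
        (C.sub_mem m2 (coeff_mem hb _))
  · refine notMem hind i5 ?_
    show const 5 ∈ clf KK _
    set C := clf KK ((fun k : {k : ℕ // (k = 0 ∨ 3 ≤ k ∧ Odd k) ∧ k ≤ 5} => const k) '' {i5}ᶜ) with hCdef
    have m0 : (Real.pi : ℂ) ∈ C := by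
      rw [← c0]
      exact subset_clf _ ⟨i0, by simp [i0, i5], rfl⟩
    have m3 : riemannZeta ((3 : ℕ) : ℂ) ∈ C := by
      rw [← c3]
      exact subset_clf _ ⟨i3, by simp [i3, i5], rfl⟩
    obtain ⟨m2, m4⟩ := even C m0
    have h5 : riemannZeta ((5 : ℕ) : ℂ) = (riemannZeta ((2 : ℕ) : ℂ) * riemannZeta ((3 : ℕ) : ℂ) -
        a * riemannZeta ((2 : ℕ) : ℂ) - b * riemannZeta ((3 : ℕ) : ℂ) - c * riemannZeta ((4 : ℕ) : ℂ)) / d := by
      rw [eq_div_iff hd0]
      linear_combination -heq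
    rw [c5, h5]
    exact C.div_mem (C.sub_mem (C.sub_mem (C.sub_mem (C.mul_mem m2 m3) (C.mul_mem (coeff_mem ha _) m2))
      (C.mul_mem (coeff_mem hb _) m3)) (C.mul_mem (coeff_mem hc _) m4)) (coeff_mem hd _)

theorem result (X : Set ℂ) (hX : Points X) :
    -- `T_k(0) = ζ(k)`
    (∀ k : ℕ, 2 ≤ k → T k 0 = riemannZeta k) ∧
    -- (1)
    {x ∈ X ∪ {0} | InSpan x}.encard ≤ 3 ∧
    -- (2)
    ((∃ a ∈ baseField, ∃ b ∈ baseField, ∃ c ∈ baseField, ∃ d ∈ baseField,
      riemannZeta 2 * riemannZeta 3 = a * riemannZeta 2 + b * riemannZeta 3 + c * riemannZeta 4 + d * riemannZeta 5) →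
      {x ∈ X | ¬ AlgebraicIndependent baseField (fun k : {k : ℕ // 2 ≤ k ∧ k ≤ 5} => T k x)}.encard ≤ 2) ∧
    -- (3)
    (∀ m : ℕ, 1 ≤ m → (exceptional X m).encard ≤ (((m + 1) / 2 : ℕ) : ℕ∞)) := by
  have h5 : (exceptional X 5).encard ≤ 3 := exc_le hX (m := 5) (by norm_num)
  refine ⟨fun k hk => T_zero hk, ?_, ?_, fun m hm => exc_le hX hm⟩
  · refine le_trans (encard_le_encard ?_) h5
    rintro x ⟨hx | hx, h⟩
    · exact span_pos hx h
    · rw [mem_singleton_iff] at hx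
      subst hx
      exact span_zero h
  · rintro ⟨a, ha, b, hb, c, hc, d, hd, heq⟩
    have h0 : InSpan 0 := by
      refine ⟨a, ha, b, hb, c, hc, d, hd, ?_⟩
      rw [T_zero (by norm_num), T_zero (by norm_num), T_zero (by norm_num), T_zero (by norm_num)]
      exact_mod_cast heq
    have h1 : insert (0 : ℂ) {x ∈ X | ¬ AlgebraicIndependent baseField (fun k : {k : ℕ // 2 ≤ k ∧ k ≤ 5} => T k x)} ⊆
        exceptional X 5 := by
      rintro x (rfl | ⟨hx, h⟩)
      · exact span_zero h0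
      · exact Or.inl ⟨hx, h⟩
    have h2 : (0 : ℂ) ∉ {x ∈ X | ¬ AlgebraicIndependent baseField (fun k : {k : ℕ // 2 ≤ k ∧ k ≤ 5} => T k x)} :=
      fun h => zero_notMem hX h.1
    have h3 := (encard_le_encard h1).trans h5
    rw [encard_insert_of_notMem h2] at h3
    have h4 : (3 : ℕ∞) = 2 + 1 := by norm_num
    rw [h4] at h3
    exact (ENat.add_le_add_iff_right ENat.one_ne_top).1 h3

end Pool.Agent.Results.MP_524521_nt.DampedProduct
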