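import Pool.Agent.N603.DB.Nr
import Pool.Agent.N603.DB.Nc
import Pool.Agent.N603.DB.Hz

/-!
# `ζ(2, x) ζ(3, x)` and the span of `1, ζ(2, x), …, ζ(5, x)` at the algebraic numbers near almost every point

The numbers `ζ(k)` are the values at `x = 1` of the Hurwitz zeta functions `ζ(k, x) = ∑ 1 / (x + m)^k`, `m ≥ 0`. We
consider the numbers `v_s`: `Γ(x), ψ(x), ζ(2, x), …, ζ(w + 1, x)` at algebraic numbers `x` with positive real part, and
their products `v_i v_j`, `i ≠ j`.

(1) For all complex numbers `ξ` with positive real part outside a set of Hausdorff dimension ZERO, all number fields `F`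
in `ℂ`, all powers `A` and all exponents `τ > 0` there is `B` such that for all `C`: at ALL but finitely many elements
`x` of `F` with `|ξ - x| ≤ C T^(-τ)`, `T` the height of `x`, the products `v_i v_j` have a distance at least `T^(-B)`
from all combinations of `1` and the numbers `v_s` with coefficients in `F` of height at most `T^A`. For `w = 4` this
contains the product `ζ(2, x) ζ(3, x)` and the combinations of `1, ζ(2, x), ζ(3, x), ζ(4, x), ζ(5, x)`; `x = 1` is the
question of the problem. For real `ξ` and rational `x` the case `τ = 2` concerns all convergents of `ξ`; but every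
`τ > 0` is allowed, and for small `τ` there are very many `x`.

(2) The same at EVERY element `x` of `F` in a compact subset of the half-plane with a height within `q^κ` of `G q`, where
`q` runs through the natural numbers with `‖q α_j - β_j‖ ≤ C q^(-τ)` for `j = 1, …, m`, for all `α` in `ℝ^m` outside a set
of Hausdorff dimension at most `(m + κ) / (1 + τ)`. For `β = 0`, `C = 1`, `τ = 1 / m` these `q` include the denominators of
all best simultaneous approximations; they form a very sparse sequence, and for `κ < 1` the bound is less than `m`, so that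
the statement holds for almost all `α`. `G` is a function with steps bounded below by a positive constant and growth at
most `v^e`, for example `a v^e`.

Proof. The functions `x, Γ(x), ψ(x), ψ'(x), …` are algebraically independent (`Pool.Agent.Q136.LR.loc`), and
`ζ(k, x) = (-1)^k / (k - 1)! ψ^(k-1)(x)` (proved in `Pool.Agent.N603.DB.Hz`). The elements of height at most `T` in a
compact set at which there is a relation of bounded degree and height `T^A'`, also an approximate one, are `O(T^ε)` in
number for every `ε > 0` (determinants of Bombieri-Pila type); so the limit superior of the discs with radii `C T^(-τ)`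
around them has dimension at most `ε / τ`, and for (2) the `q` for which such an element has a height near `G q` form a set
with `O(X^(κ + ε))` elements up to `X`, and the `α` with infinitely many approximations with denominators in such a set are
covered by few small cubes (`Pool.Agent.N671.DA`). There are only countably many number fields in `ℂ`.
-/

set_option autoImplicit false

open NumberField

namespace Pool.Agent.Results.MP_524521_nt.HurwitzZetaProducts

open Pool.Agent.N671.DA (Solves Expanding expanding_pow)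

/-- The Hurwitz zeta function `ζ(k, x) = ∑ 1 / (x + m)^k`, `m ≥ 0`, for `k ≥ 2`. -/
noncomputable def hurwitz (k : ℕ) (x : ℂ) : ℂ := ∑' m : ℕ, 1 / (x + m) ^ k

/-- The right half-plane. -/
def dom : Set ℂ := {x | 0 < x.re}

/-- The numbers `Γ(x)` (index `none`), `ψ(x)` (the logarithmic derivative of `Γ`, index `some 0`) and `ζ(k + 1, x)` (index
`some k`), `1 ≤ k ≤ w`. -/
noncomputable def value (w : ℕ) (x : ℂ) : Option (Fin (w + 1)) → ℂ
  | none => Complex.Gamma x
  | some k => if (k : ℕ) = 0 then Complex.digamma x else hurwitz (k + 1) x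

/-- The element `x` of `F` is a quotient of integers all of whose conjugates have absolute value at most `T`. -/
def HeightLe (F : Type) [Field F] [NumberField F] (T : ℝ) (x : F) : Prop :=
  ∃ a b : 𝓞 F, b ≠ 0 ∧ (∀ φ : F →+* ℂ, ‖φ a‖ ≤ T ∧ ‖φ b‖ ≤ T) ∧ x = a / b

/-- The height of `x`: the least `T` such that `x` is a quotient of two integers of `F` all of whose conjugates have
absolute value at most `T`. -/
noncomputable def height (F : Type) [Field F] [NumberField F] (x : F) : ℝ := sInf {T : ℝ | HeightLe F T x}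

/-- All products of two different ones of the numbers `v_s` at `x` have a distance at least `T^(-B)` from all combinations
of `1` and the numbers `v_s` with coefficients in `F` of height at most `T^A`, `T` the height of `x`. -/
def Far (F : IntermediateField ℚ ℂ) [NumberField F] (w : ℕ) (A B : ℝ) (x : F) : Prop :=
  ∀ i j : Option (Fin (w + 1)), i ≠ j → ∀ y : Option (Option (Fin (w + 1))) → F,
    (∀ o, height F (y o) ≤ height F x ^ A) →
      height F x ^ (-B) ≤ ‖value w (x : ℂ) i * value w (x : ℂ) j -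
        ((y none : ℂ) + ∑ s, (y (some s) : ℂ) * value w (x : ℂ) s)‖

theorem hurwitz_one (k : ℕ) (hk : 2 ≤ k) : hurwitz k 1 = riemannZeta k := by
  rw [zeta_eq_tsum_one_div_nat_add_one_cpow (by rw [Complex.natCast_re]; exact_mod_cast hk)]
  unfold hurwitz
  refine tsum_congr fun m => ?_
  rw [Complex.cpow_natCast, add_comm]

theorem value_eq (w : ℕ) (x : ℂ) (a : Option (Fin (w + 1))) : Pool.Agent.N603.DB.Hz.fh w a x = value w x a := by
  cases a with
  | none => rfl
  | some k =>
    show (if (k : ℕ) = 0 then Complex.digamma else Pool.Agent.N603.DB.Hz.hz (k + 1)) x =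
      (if (k : ℕ) = 0 then Complex.digamma x else hurwitz (k + 1) x)
    split_ifs <;> rfl

theorem far (F : IntermediateField ℚ ℂ) [NumberField F] {w : ℕ} {A B : ℝ} (hA : 0 ≤ A) {x : F}
    (h : Pool.Agent.R349.Gen.GoodG F (algebraMap F ℂ) (fun _ : Fin 1 => (1 : ℂ)) 1
      (Pool.Agent.N603.DA.ht F x ^ (A * ((Fintype.card (Option (Fin (w + 1))) + 1 : ℕ) : ℝ)))
      (Pool.Agent.N603.DA.ht F x ^ (-B)) (value w (x : ℂ))) : Far F w A B x := by
  intro i j hij y hy
  have hT1 := Pool.Agent.N603.DA.one_le_ht F x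
  have hT0 : 0 ≤ Pool.Agent.N603.DA.ht F x := by linarith
  have hy' : ∀ o, ∃ a b : 𝓞 F, b ≠ 0 ∧ (∀ φ : F →+* ℂ, ‖φ a‖ ≤ Pool.Agent.N603.DA.ht F x ^ A ∧
      ‖φ b‖ ≤ Pool.Agent.N603.DA.ht F x ^ A) ∧ y o = a / b := fun o =>
    (Pool.Agent.N603.DA.ht_le_iff F (y o) _).1 (hy o)
  choose a b hb hab hyab using hy'
  rw [Real.rpow_mul hT0, Real.rpow_natCast] at h
  have h1 := Pool.Agent.N603.DB.not_span (Real.one_le_rpow hT1 hA) hij h a b hb hab
  have h2 : ∀ o, (y o : ℂ) = algebraMap F ℂ ((a o : F) / b o) := fun o => congrArg (algebraMap F ℂ) (hyab o)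
  simp only [h2]
  exact h1

theorem ht_zero (F : Type) [Field F] [NumberField F] {T : ℝ} (hT : 1 ≤ T) : height F 0 ≤ T := by
  refine (Pool.Agent.N603.DA.ht_le_iff F 0 T).2 ⟨0, 1, one_ne_zero, fun φ => ⟨?_, ?_⟩, by simp⟩
  · have : φ ((0 : 𝓞 F) : F) = 0 := by simp
    rw [this, norm_zero]
    linarith
  · have : φ ((1 : 𝓞 F) : F) = 1 := by simp
    rw [this, norm_one]
    exact hT

/-- the case of `ζ(2, x) ζ(3, x)` -/
theorem special (F : IntermediateField ℚ ℂ) [NumberField F] {A B : ℝ} (hA : 0 ≤ A) {x : F} (h : Far F 4 A B x)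
    (y : Fin 5 → F) (hy : ∀ k, height F (y k) ≤ height F x ^ A) :
    height F x ^ (-B) ≤ ‖hurwitz 2 x * hurwitz 3 x - ((y 0 : ℂ) + (y 1 : ℂ) * hurwitz 2 x + (y 2 : ℂ) * hurwitz 3 x +
      (y 3 : ℂ) * hurwitz 4 x + (y 4 : ℂ) * hurwitz 5 x)‖ := by
  have h0 : height F 0 ≤ height F x ^ A :=
    ht_zero F (Real.one_le_rpow (Pool.Agent.N603.DA.one_le_ht F x) hA)
  have h1 := h (some 1) (some 2) (by simp) (fun o => o.elim (y 0) fun o => o.elim 0 fun k => if k = 0 then 0 else y k)
    (by
      rintro (_ | _ | k)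
      · exact hy 0
      · exact h0
      · show height F (if k = 0 then 0 else y k) ≤ _
        split_ifs
        · exact h0
        · exact hy k)
  have e1 : value 4 (x : ℂ) (some 1) = hurwitz 2 x := rfl
  have e2 : value 4 (x : ℂ) (some 2) = hurwitz 3 x := rfl
  have e3 : value 4 (x : ℂ) (some 3) = hurwitz 4 x := rfl
  have e4 : value 4 (x : ℂ) (some 4) = hurwitz 5 x := rfl
  rw [Fintype.sum_option, Fin.sum_univ_five, e1, e2, e3, e4] at h1
  refine h1.trans (le_of_eq ?_)
  congr 2
  simp
  ring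

/-- **`ζ(2, x) ζ(3, x)` near every point and at the denominators of good approximations.** Let `w` be a natural number.
(1) There is a set `E` in `ℂ` of Hausdorff dimension zero, whose real elements form a set of Hausdorff dimension zero,
such that for all `ξ` with positive real part which are not in `E`, all number fields `F` in `ℂ`, all `A ≥ 0` and all
`τ > 0`: there is `B` such that for all `C` there is `T₁` such that for ALL `x` in `F` of height `T ≥ T₁` with
`|ξ - x| ≤ C T^(-τ)` the real part of `x` is positive and all products of two different ones of the numbers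
`Γ(x), ψ(x), ζ(2, x), …, ζ(w + 1, x)` have a distance at least `T^(-B)` from all combinations of `1` and these numbers with
coefficients in `F` of height at most `T^A`.
(2) Let `G` have steps `≥ a > 0` and growth at most `v^b`, `0 ≤ κ ≤ 1`, `β` in `ℝ^m` and `τ > 0`. There is a set `E` in
`ℝ^m` of Hausdorff dimension at most `(m + κ) / (1 + τ)` such that for all `α` outside `E`, all number fields `F` in `ℂ`,
all `A ≥ 0` and all compact subsets `L` of the half-plane there is `B` such that for all `C` and all large `q` with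
`‖q α_j - β_j‖ ≤ C q^(-τ)` for all `j`: the same at EVERY `x` in `F ∩ L` with `|height x - G q| ≤ q^κ`.
(3) For `w = 4` this contains the product `ζ(2, x) ζ(3, x)` and the combinations of `1, ζ(2, x), …, ζ(5, x)`.
(4) `ζ(k, 1) = ζ(k)` for `k ≥ 2`. Only finitely many elements of `F` have a height less than `T₁`; the infimum in the
definition of the height is a minimum, the height of a rational number in `(0, 1)` is its denominator, and the functions
`a v^b` with `a > 0`, `b ≥ 1` are examples of `G`. -/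
theorem result :
    (∀ w : ℕ,
      (∃ E : Set ℂ, dimH E = 0 ∧ dimH {y : ℝ | (y : ℂ) ∈ E} = 0 ∧
        ∀ ξ ∈ dom, ξ ∉ E → ∀ (F : IntermediateField ℚ ℂ) [NumberField F] (A τ : ℝ), 0 ≤ A → 0 < τ →
          ∃ B : ℝ, ∀ C : ℝ, ∃ T₁ : ℝ, ∀ x : F, T₁ ≤ height F x → ‖ξ - (x : ℂ)‖ ≤ C * height F x ^ (-τ) →
            (x : ℂ) ∈ dom ∧ Far F w A B x) ∧
      ∀ (G : ℕ → ℝ) (b : ℝ), Expanding G b → ∀ κ : ℝ, 0 ≤ κ → κ ≤ 1 → ∀ (m : ℕ) (β : Fin m → ℝ) (τ : ℝ), 0 < τ →
      ∃ E : Set (Fin m → ℝ), dimH E ≤ ENNReal.ofReal ((m + κ) / (1 + τ)) ∧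
        ∀ α, α ∉ E → ∀ (F : IntermediateField ℚ ℂ) [NumberField F] (A : ℝ) (L : Set ℂ), 0 ≤ A →
          IsCompact L → L ⊆ dom →
          ∃ B : ℝ, ∀ C : ℝ, ∃ Q : ℕ, ∀ q : ℕ, Q ≤ q → Solves α β q (C * (q : ℝ) ^ (-τ)) →
            ∀ x : F, (x : ℂ) ∈ L → |height F x - G q| ≤ (q : ℝ) ^ κ → Far F w A B x) ∧
    (∀ (F : IntermediateField ℚ ℂ) [NumberField F] (A B : ℝ), 0 ≤ A → ∀ x : F, Far F 4 A B x →
      ∀ y : Fin 5 → F, (∀ k, height F (y k) ≤ height F x ^ A) →
        height F x ^ (-B) ≤ ‖hurwitz 2 x * hurwitz 3 x - ((y 0 : ℂ) + (y 1 : ℂ) * hurwitz 2 x +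
          (y 2 : ℂ) * hurwitz 3 x + (y 3 : ℂ) * hurwitz 4 x + (y 4 : ℂ) * hurwitz 5 x)‖) ∧
    (∀ k : ℕ, 2 ≤ k → hurwitz k 1 = riemannZeta k) ∧
    (∀ (F : Type) [Field F] [NumberField F] (T : ℝ), {x : F | height F x < T}.Finite) ∧
    (∀ (F : Type) [Field F] [NumberField F] (x : F) (T : ℝ), height F x ≤ T ↔ HeightLe F T x) ∧
    (∀ (F : Type) [Field F] [NumberField F] (r : ℚ), 0 < r → r < 1 → height F (r : F) = r.den) ∧
    ∀ a b : ℝ, 0 < a → 1 ≤ b → Expanding (fun v => a * (v : ℝ) ^ b) b := by
  refine ⟨fun w => ?_, fun F _ A B hA x h y hy => special F hA h y hy, hurwitz_one,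
    fun F _ _ T => Pool.Agent.N603.DB.fin_lt F T, fun F _ _ x T => Pool.Agent.N603.DA.ht_le_iff F x T,
    fun F _ _ r h0 h1 => Pool.Agent.N603.DA.ht_rat F r h0 h1, fun a b ha hb => expanding_pow ha hb⟩
  have hv : ∀ x : ℂ, (fun k : Option (Fin (w + 1)) => Pool.Agent.N603.DB.Hz.fh w k x) = value w x := fun x =>
    funext fun k => value_eq w x k
  have hS : IsOpen dom := Pool.Agent.N603.DB.Hz.Hp_open
  refine ⟨?_, fun G b hG κ hκ hκ1 m β τ hτ => ?_⟩
  · obtain ⟨E, hE, h⟩ := Pool.Agent.N603.DB.near_every (Pool.Agent.N603.DB.Hz.fh w) _ hS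
      (fun j x hx => Pool.Agent.N603.DB.Hz.fh_an w j x hx) (Pool.Agent.N603.DB.Hz.fh_loc w) (fun _ => 1)
    refine ⟨E, hE, Pool.Agent.N603.DB.dim_real hE, fun ξ hξ hξE F _ A τ hA hτ => ?_⟩
    obtain ⟨B, hB⟩ := h ξ hξ hξE F 1 1 (A * ((Fintype.card (Option (Fin (w + 1))) + 1 : ℕ) : ℝ)) τ hτ
    refine ⟨B, fun C => ?_⟩
    obtain ⟨T₁, hT₁⟩ := hB C
    refine ⟨T₁, fun x hx hd => ?_⟩
    have h1 := hT₁ x hx hd
    rw [hv] at h1
    exact ⟨h1.1, far F hA h1.2⟩
  · obtain ⟨E, hE, h⟩ := Pool.Agent.N603.DB.master_all' (Pool.Agent.N603.DB.Hz.fh w) _ hS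
      (fun j x hx => Pool.Agent.N603.DB.Hz.fh_an w j x hx) (Pool.Agent.N603.DB.Hz.fh_loc w) (fun _ => 1)
      hG hκ hκ1 β hτ
    refine ⟨E, hE, fun α hα F _ A L hA hL hLS => ?_⟩
    obtain ⟨B, hB⟩ := h α hα F 1 1 (A * ((Fintype.card (Option (Fin (w + 1))) + 1 : ℕ) : ℝ)) L hL hLS
    refine ⟨B, fun C => ?_⟩
    obtain ⟨Q, hQ⟩ := hB C
    refine ⟨Q, fun q hq hs x hx hG' => ?_⟩
    have h1 := hQ q hq hs x hx hG'
    rw [hv] at h1
    exact far F hA h1

end Pool.Agent.Results.MP_524521_nt.HurwitzZetaProducts
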