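import Pool.Agent.N743.SD.Prod

/-!
# Near relations between `ζ(2)ζ(3), ζ(2), ζ(3), ζ(4)` and further numbers: the evolution of their span with the scale

`z_1, …, z_r` are arbitrary real numbers; for `r = 1` and `z_1 = ζ(5)` the exact relations are the solutions of the
equation of the problem (with common denominator) and the relations between `ζ(2), …, ζ(5)`. `N(X)` is the rational
span of the near relations at the scale `X`.

The proof uses the library's theorem on near relations at one scale (`Pool.Agent.V11210.ZZ.gen`).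
-/

set_option autoImplicit false

open Filter Module

namespace Pool.Agent.Results.MP_524521_nt.SubspaceDichotomy

/-- `ζ(s) = ∑_{k ≥ 1} k^(-s)` -/
noncomputable def zeta (s : ℕ) : ℝ := ∑' k : ℕ, 1 / ((k : ℝ) + 1) ^ s

/-- `ζ(2)ζ(3), ζ(2), ζ(3), ζ(4), z_1, …, z_r` (as complex numbers) -/
noncomputable def family {r : ℕ} (z : Fin r → ℝ) : Fin 4 ⊕ Fin r → ℂ := fun i =>
  ((Sum.elim (![zeta 2 * zeta 3, zeta 2, zeta 3, zeta 4] : Fin 4 → ℝ) z i : ℝ) : ℂ)

/-- the near relations at the scale `X`: integer vectors with coordinates at most `X ^ θ` whose value is at most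
`1 / X` -/
def near {r : ℕ} (z : Fin r → ℝ) (θ X : ℝ) : Set (Fin 4 ⊕ Fin r → ℤ) :=
  {a | (∀ i, |(a i : ℝ)| ≤ X ^ θ) ∧ ‖∑ i, (a i : ℂ) * family z i‖ ≤ 1 / X}

/-- `N(X)`: the rational span of the near relations at the scale `X` -/
noncomputable def span {r : ℕ} (z : Fin r → ℝ) (θ X : ℝ) : Submodule ℚ (Fin 4 ⊕ Fin r → ℚ) :=
  Submodule.span ℚ ((fun a i => (a i : ℚ)) '' near z θ X)

/-- the space of the exact rational linear relations -/
noncomputable def relations {r : ℕ} (z : Fin r → ℝ) : Submodule ℚ (Fin 4 ⊕ Fin r → ℚ) :=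
  LinearMap.ker (Fintype.linearCombination ℚ (family z))

/-- For every `r ≥ 0` there is `θ₀ > 0` such that for all `θ > 0`, `M > 1` with `M θ ≤ θ₀` there is `X₁` such that for
all real numbers `z_1, …, z_r` (with `N(X)` the span of the near relations and `R` the space of the exact relations
between `ζ(2)ζ(3), ζ(2), ζ(3), ζ(4), z_1, …, z_r`):

1. `dim N(X) ≤ r + 1` for all `X ≥ X₁`;
2. `dim R ≤ r + 1`, and if `dim R = r + 1` then `N(X) = R` for all large `X`;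
3. if `dim R ≤ r`, `X ≥ X₁` and `dim N(X) = r + 1` then there is `Z ≥ X` with `N(Y) ⊆ N(X)` for `X ≤ Y ≤ Z` and
   `dim N(Y) ≤ r` for `Z < Y ≤ Z ^ M`;
4. if `dim R ≤ r` then for arbitrarily large `Z`, `dim N(Y) ≤ r` for all `Z < Y ≤ Z ^ M`;
5. `dim R = r + 1` if and only if `dim N(X) = r + 1` for all large `X`. -/
theorem result : ∀ r : ℕ, ∃ θ₀ : ℝ, 0 < θ₀ ∧ ∀ θ M : ℝ, 0 < θ → 1 < M → M * θ ≤ θ₀ →
    ∃ X₁ : ℝ, ∀ z : Fin r → ℝ,
      (∀ X, X₁ ≤ X → finrank ℚ (span z θ X) ≤ r + 1) ∧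
      finrank ℚ (relations z) ≤ r + 1 ∧
      (finrank ℚ (relations z) = r + 1 → ∀ᶠ X : ℝ in atTop, span z θ X = relations z) ∧
      (finrank ℚ (relations z) < r + 1 → ∀ X, X₁ ≤ X → finrank ℚ (span z θ X) = r + 1 → ∃ Z, X ≤ Z ∧
        (∀ Y, X ≤ Y → Y ≤ Z → span z θ Y ≤ span z θ X) ∧
          ∀ Y, Z < Y → Y ≤ Z ^ M → finrank ℚ (span z θ Y) < r + 1) ∧
      (finrank ℚ (relations z) < r + 1 → ∀ X : ℝ, ∃ Z, X ≤ Z ∧
        ∀ Y, Z < Y → Y ≤ Z ^ M → finrank ℚ (span z θ Y) < r + 1) ∧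
      (finrank ℚ (relations z) = r + 1 ↔ ∀ᶠ X : ℝ in atTop, finrank ℚ (span z θ X) = r + 1) := by
  intro r
  obtain ⟨θ₀, hθ₀, h⟩ := Pool.Agent.N743.SD.dich_prod r
  refine ⟨θ₀, hθ₀, fun θ M hθ hM hMθ => ?_⟩
  obtain ⟨X₁, hX₁⟩ := h θ M hθ hM hMθ
  refine ⟨X₁, fun z => ?_⟩
  have h1 : Pool.Agent.N743.SD.DichS (r + 1) (family z) θ M X₁ := hX₁ z
  exact ⟨h1.a, h1.b, h1.b', h1.c, h1.d, h1.e⟩

end Pool.Agent.Results.MP_524521_nt.SubspaceDichotomy
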